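import Pool.Agent.H77.T2Proof

set_option autoImplicit false

namespace Pool.Agent.Results.MP_944b5f_al.Generated

open Pool.Agent.H77.T2

/-- The clone generated by `T2` is the largest clone on `ℕ` whose binary fragment is `T2`,
that is, `⟨T2⟩ = Pol(T2)`. -/
theorem result :
    IsGreatest {D : ∀ n, Set (Op n) | IsClone D ∧ D 1 = T2} (gen T2) :=
  Pool.Agent.H77.T2.main

end Pool.Agent.Results.MP_944b5f_al.Generated
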